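import Pool.Agent.U393.IT.Main

/-!
# Iitaka's conjecture for the fibrations of the images of `X × Y` follows from the conjecture in the
dimension of `Y`

Let `X` be a smooth projective variety of dimension `d` over `ℂ`, with morphisms to projective spaces
`ℙ^{N 0}, ..., ℙ^{N (k - 1)}` which together map `X` birationally onto its image; `H i` is the pull-back of
a hyperplane. For instance `k = 1` and `X ⊆ ℙ^N`. Let `Y` be any smooth projective variety, of dimension
`n`. Let `V = X × Y ⇢ W` be a dominant rational map of finite degree to any variety `W`, such that
the map `V ⇢ W × X` is injective on an open subset. The map `V ⇢ W` need not be compatible with the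
projections, and it need not be a Galois cover. Let `W_i` be the image of `V` in
`W × ℙ^{N 0} × ... × ℙ^{N (i - 1)}` and let `δ i` be the degree of `W_{i + 1}` over `W_i`. So the product
of all `δ i` is the degree of `V` over `W`. Suppose that `K_X - 2 ∑ (δ i - 1) H i` is big: for some
`m ≥ 1` there are `m`-canonical forms on `X`, with at least the zeros `2 m ∑ (δ i - 1) H i`, whose ratios
contain `d` algebraically independent functions. For instance `X ⊆ ℙ^{d + 1}` is a smooth hypersurface of
degree more than `d + 2 δ 0`. If the degree of `V ⇢ W` is a prime number then the injectivity means only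
that `V ⇢ X` does not factor through `W`.

Let `W ⇢ Z` be any fibration (any dominant rational map), with generic fibre `F`. Let `Z'` be the image of
`V` in `X × Z`, of dimension `d + e'`, and let `c = dim Z - e'` be its codimension in `X × Z`. Over the
function field `ℂ(X)` the variety `Y` has a fibration `Y_{ℂ(X)} ⇢ Z'_{ℂ(X)}` over the variety
`Z'_{ℂ(X)}` of dimension `e'`, the generic fibre of `Z' → X`.

**Theorem.** Suppose that `κ(Z) ≥ 0` and `κ(F) ≥ 0`. If Iitaka's inequality holds for the single fibration
`Y_{ℂ(X)} ⇢ Z'_{ℂ(X)}` over `ℂ(X)`, or if Iitaka's conjecture is true for the fibrations of the complex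
varieties of dimension `n = dim Y`, or if `e' = 0` (i.e. `V ⇢ Z` factors through `X`), or if `e' = dim Y`
(i.e. `V ⇢ X × Z` is generically finite), then

  `κ(W) ≥ max (κ(Z), c) + max (κ(F), d - c)`,

and `0 ≤ c ≤ d`. In particular `κ(W) ≥ κ(F) + κ(Z)`, and `κ(W) ≥ κ(Z) + d - c`, and `κ(W) ≥ κ(F) + c`.

So Iitaka's conjecture for the fibrations of `n`-dimensional varieties implies the conjecture for all
fibrations of all these varieties `W`, in all dimensions. It is known for `n ≤ 6`, and for the
fibrations with a base of dimension at most `2` and for those whose general fibre has a good minimal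
model; so it is true for all these varieties `W` if `dim Y ≤ 6`, and if `dim Y` is arbitrary then
it is true for the fibrations `W ⇢ Z` with `e' ≤ 2` or `dim Y - e' ≤ 3`, for instance if `e' = dim Z - c ≤ 2`,
where neither `dim Z` nor `dim F` is bounded. If `Y` is a curve then no hypothesis is needed: then
`e' = 0` or `e' = 1`. This includes fibrations with `F` and `Z` of general type. (The examples are not part of the
Lean proof.) The variety `W` can be a quotient of `X × Y` by a finite group of birational
automorphisms, no element of which, except for `1`, preserves the projection to `X`; nothing is known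
about good minimal models of `W` or of `F`, and the Kodaira dimension of `W` is not assumed to be
nonnegative.

Proof. Let `U`, `L`, `K`, `E` be the function fields of `X`, `V`, `W`, `Z` and `M = U E` the one of
`Z'`. (1) Pluricanonical forms of `F` (over the field `E`) are pulled back to `V` (over `E`) and restricted to the
generic fibre of `V ⇢ Z'`; as `dim Z' - dim Z = d - c`, it has the Kodaira dimension at least
`κ(F) - (d - c)`. (2) Take functions `u` on `X` which are a transcendence basis of `M` over
`E`. The pluricanonical forms on `Z` are pulled back to `Z'`, considered as a variety over `ℂ(u)`, which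
has the same dimension as `Z`; they are regular at all prime divisors over this field by Abhyankar's
inequality. Their restriction to the generic fibre of `Z' → X`
has at least `κ(Z) - c` algebraically independent ratios. (3) By the hypothesis `Y_{ℂ(X)}` has the
Kodaira dimension at least `max (κ(Z) - c, 0) + max (κ(F) - (d - c), 0)`. If the conjecture is
assumed over `ℂ` then it is applied over the algebraic closure of `U`, which is isomorphic to `ℂ`.
(4) The coefficients of the pluricanonical forms of `Y_{ℂ(X)}` with respect to a
basis of `U` over `ℂ` are pluricanonical forms on `Y`, so that `κ(Y)` is at least this number, too.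
(5) `κ(W) ≥ d + κ(Y)` is proved with norms of forms from `V` to `W`, see
`Pool.Agent.U192.PE.kod_prod`.
-/

set_option autoImplicit false
set_option linter.overlappingInstances false

open FF Module
open Pool.Agent.W602.GT (IsPluri Divisorial DerReg KodGe)

namespace Pool.Agent.Results.MP_f72953_ag.IitakaTransfer

/-- The Kodaira dimension of the smooth projective varieties of dimension `n` over `k` with the
function field `K` is at least `h`: there are pluricanonical forms of some weight, regular at all
prime divisors, with `h` algebraically independent ratios. -/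
def KappaGe (k K : Type) [Field k] [Field K] [Algebra k K] (n h : ℕ) : Prop :=
  KodGe k K n (fun _ => False) h

/-- **Iitaka's inequality** holds for the fibration of the variety over the field `k` with the
function field `K` over the variety with the function field `M ⊆ K`: if `e` and `f` are the dimensions of
the base and the fibre, and if their Kodaira dimensions are at least `p ≥ 0` and `q ≥ 0`, then the Kodaira
dimension of the total space is at least `p + q`. -/
def IitakaFor (k K : Type) [Field k] [Field K] [Algebra k K] (M : IntermediateField k K) : Prop :=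
  ∀ e f p q : ℕ, Algebra.trdeg k M = e → Algebra.trdeg M K = f →
    KappaGe k M e p → KappaGe M K f q → KappaGe k K (e + f) (p + q)

/-- **Iitaka's conjecture** is true for the fibrations of the complex varieties of dimension `n`. -/
def IitakaConjecture (n : ℕ) : Prop :=
  ∀ (K : Type) [Field K] [Algebra ℂ K] [Algebra.EssFiniteType ℂ K], Algebra.trdeg ℂ K = n →
    ∀ M : IntermediateField ℂ K, IitakaFor ℂ K M

/-- The order of the poles along `P` of the functions in the finite set `Y`: the multiplicity along `P`
of the pull-back of a hyperplane under the rational map with the coordinates `1` and `Y`. -/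
noncomputable def poleOrder {U : Type} [Field U] [Algebra ℂ U] (Y : Finset U) (P : Place ℂ U) : ℕ :=
  Y.sup fun z => (-P.ord z).toNat

/-- The functions on `X` as functions on `V = X × Y`. -/
def onV {L : Type} [Field L] [Algebra ℂ L] {U : IntermediateField ℂ L} (Y : Finset U) : Finset L :=
  Y.map (Function.Embedding.subtype fun z => z ∈ U)

/-- The function field of the image `W_j` of `V` in the product of `W` and the first `j` projective
spaces. `K` and `L` are the function fields of `W` and `V`, and `X i` is the set of the affine
coordinates of the `i`-th rational map. -/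
def Img {L : Type} [Field L] [Algebra ℂ L] {U : IntermediateField ℂ L} (K : Type) [Field K]
    [Algebra K L] {k : ℕ} (X : Fin k → Finset U) (j : ℕ) : IntermediateField K L :=
  IntermediateField.adjoin K {z | ∃ i : Fin k, i.val < j ∧ z ∈ onV (X i)}

/-- The degree `δ i` of `W_{i + 1}` over `W_i`. -/
noncomputable def deg {L : Type} [Field L] [Algebra ℂ L] {U : IntermediateField ℂ L} (K : Type)
    [Field K] [Algebra K L] {k : ℕ} (X : Fin k → Finset U) (i : Fin k) : ℕ :=
  finrank (Img K X i) (IntermediateField.adjoin (Img K X i) (onV (X i) : Set L))

/-- `θ` is a section of `m K_X - H`, where `U` is the function field of the variety `X`, of dimension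
`d`, and `H` has the multiplicity `b P` at `P`: the order of the `m`-canonical form `θ` along each prime
divisor `P` over `X` is at least `b P`. -/
def IsSection {U : Type} [Field U] [Algebra ℂ U] (d m : ℕ) (b : Place ℂ U → ℤ)
    (θ : (Fin d → Derivation ℂ U U) → U) : Prop :=
  IsPluri m θ ∧ ∀ P : Place ℂ U, Divisorial d P → ∀ G : Fin d → Derivation ℂ U U,
    (∀ i, DerReg P (G i)) → θ G ≠ 0 → b P ≤ P.ord (θ G)

/-- The function field of the image `Z'` of `V` in `X × Z`, as an extension of the function field `U` of
`X`. Here `K` and `L` are the function fields of `W` and `V`, and `E ⊆ K` is the one of `Z`. -/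
noncomputable def Onto {L : Type} [Field L] [Algebra ℂ L] (U : IntermediateField ℂ L) {K : Type} [Field K]
    [Algebra ℂ K] [Algebra K L] (E : IntermediateField ℂ K) : IntermediateField U L :=
  IntermediateField.adjoin U (algebraMap K L '' E)

/-- **Iitaka's conjecture for the images of `X × Y`.** Let `L` be the function field of the product
`V` of the varieties `X` and `Y` with the function fields `U` and `T`, of dimensions `d` and `n`: it
is generated by `U` and `T` and has the transcendence degree `d + n`. Let `U` be generated by the finitely
many coordinates in the sets `X i`. Let `K ⊆ L` be the function field of a variety `W`, the extension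
being finite, such that `L` is generated by `K` and `U` (i.e. the map `V ⇢ W × X` is generically
injective). Suppose that there are sections `θ 0, ..., θ d` of `m (K_X - 2 ∑ (δ i - 1) H i)`, `m ≥ 1`,
whose ratios are algebraically independent.

Let `W ⇢ Z` be a dominant rational map, given by the subfield `E` of `K`, with generic fibre `F`, the
variety over `E` with the function field `K`. Let `e'` be the dimension over `X` of the image `Z'` of `V` in
`X × Z`. Suppose that Iitaka's inequality holds for the fibration of `V` over `Z'` as varieties over the
field `U`, or that Iitaka's conjecture is true for the fibrations of the complex varieties of dimension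
`n`, or that `e' = 0`, or that `e' = n`. If `κ(Z) ≥ p ≥ 0` and `κ(F) ≥ q ≥ 0` then
`κ(W) ≥ max p c + max q (d - c) ≥ p + q`, where `c = dim Z - e'` and `0 ≤ c ≤ d`. -/
theorem result {L : Type} [Field L] [Algebra ℂ L] [Algebra.EssFiniteType ℂ L]
    (U T : IntermediateField ℂ L) {d n m k : ℕ} (hUT : U ⊔ T = ⊤)
    (hU : Algebra.trdeg ℂ U = d) (hT : Algebra.trdeg ℂ T = n)
    (hL : Algebra.trdeg ℂ L = (d + n : ℕ))
    (X : Fin k → Finset U) (hX : IntermediateField.adjoin ℂ (⋃ i, (X i : Set U)) = ⊤)
    (K : Type) [Field K] [Algebra ℂ K] [Algebra K L] [IsScalarTower ℂ K L] [FiniteDimensional K L]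
    (hinj : IntermediateField.adjoin K (U : Set L) = ⊤)
    (hm : 1 ≤ m) (θ : Fin (d + 1) → (Fin d → Derivation ℂ U U) → U)
    (hθ : ∀ j, IsSection d m
      (fun P => ∑ i, 2 * m * ((deg K X i : ℤ) - 1) * poleOrder (X i) P) (θ j))
    (D : Fin d → Derivation ℂ U U) (hD : θ 0 D ≠ 0)
    (hind : AlgebraicIndependent ℂ fun j : Fin d => θ j.succ D / θ 0 D)
    (E : IntermediateField ℂ K) {e f e' : ℕ} (he : Algebra.trdeg ℂ E = e)
    (hf : Algebra.trdeg E K = f) (he' : Algebra.trdeg U (Onto U E) = e')
    (hI : IitakaFor U L (Onto U E) ∨ IitakaConjecture n ∨ e' = 0 ∨ e' = n) :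
    (∀ p q : ℕ, KappaGe ℂ E e p → KappaGe E K f q → KappaGe ℂ K (e + f) (p + q)) ∧
    ∀ p q : ℕ, KappaGe ℂ E e p → KappaGe E K f q → ∃ c : ℕ, e = e' + c ∧ c ≤ d ∧
      KappaGe ℂ K (e + f) (max p c + max q (d - c)) := by
  have hUe : Algebra.EssFiniteType ℂ U := Pool.Agent.N999.SX.ess_any U
  have hTe : Algebra.EssFiniteType ℂ T := Pool.Agent.N999.SX.ess_any T
  have hdn : e + f = d + n := by
    have h1 := trdeg_add_eq ℂ E (A := K)
    have h2 : Algebra.trdeg ℂ K = (d + n : ℕ) := Pool.Agent.Y184.NT.trdeg_below (K := L) hL
    rw [he, hf, h2] at h1
    exact_mod_cast h1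
  have hkey : ∀ p q : ℕ, KappaGe ℂ E e p → KappaGe E K f q → ∃ c : ℕ, e = e' + c ∧ c ≤ d ∧
      KappaGe ℂ K (e + f) (max p c + max q (d - c)) := by
    intro p q hp hq
    rw [hdn]
    have hE : Onto U E = IntermediateField.adjoin U (Set.range (algebraMap E L)) := by
      unfold Onto
      congr 1
      ext z
      constructor
      · rintro ⟨x, hx, rfl⟩
        exact ⟨⟨x, hx⟩, rfl⟩
      · rintro ⟨x, rfl⟩
        exact ⟨x, x.2, rfl⟩
    refine U393.IT.main (U := U) (T := T) hm hUT hU hT hL hinj X hX (α := θ)
      (fun j => ⟨(hθ j).1, fun P hP G hG => ?_⟩) hD hind E (Onto U E) hE he hf he' ?_ hp hq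
    · by_cases h0 : θ j G = 0
      · exact Or.inl h0
      · refine Or.inr ⟨1, Finset.mem_singleton_self _, one_ne_zero, ?_⟩
        rw [P.ord_one, add_zero]
        exact (hθ j).2 P hP G hG h0
    · rcases hI with h | h | h | h
      · refine Or.inl fun f0 p' q' hef hf0 hp' hq' => ?_
        have h1 := h e' f0 p' q' he' hf0 hp' hq'
        rw [hef] at h1
        exact h1
      · refine Or.inr (Or.inl fun K' _ _ _ htr M a b p' q' _ ha hb hp' hq' => ?_)
        exact h K' htr M a b p' q' ha hb hp' hq'
      · exact Or.inr (Or.inr (Or.inl h))
      · exact Or.inr (Or.inr (Or.inr h))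
  refine ⟨fun p q hp hq => ?_, hkey⟩
  obtain ⟨c, -, -, h⟩ := hkey p q hp hq
  exact Pool.Agent.R882.UA.kod_mono h (add_le_add (le_max_left _ _) (le_max_left _ _))

end Pool.Agent.Results.MP_f72953_ag.IitakaTransfer
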