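import Pool.Agent.N145.SX.MFin
import Pool.Agent.R882.UC

/-!
# Iitaka's conjecture for the fibrations of the images of products of varieties and a curve

Let `V = X 0 × ... × X (k - 1) × C`, where the `X i` are smooth projective varieties over `ℂ` of
dimension `m i` and `C` is a smooth projective curve of any genus. Let `V ⇢ W` be a dominant rational
map of finite degree to a variety `W`. It need not be related to the product structure, and it need not
be the quotient by a group. Let `W_i` be the image of `V` in `W × X 0 × ... × X (i - 1)`, and let
`d i` be the degree over `W_i` of the image of `V` in `W_i × X i`; for example `W_0 = W`, and `d 0` is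
the number of different points of `X 0` below a general fibre of `V ⇢ W`. The product of the `d i`
is at most the degree of `V ⇢ W`. Suppose that for all `i` the canonical forms of `X i` separate
`2 d i` general points: for some nonempty open subset `U` of `X i` any `2 d i` different points of `U`
impose independent conditions on `H⁰(X i, K)`. For example, `X i` is a smooth hypersurface of degree
at least `m i + 1 + 2 d i` in projective space, or a curve of gonality greater than `2 d i`.

The theorem is about all fibrations `W → Y` (of smooth models; all rational maps `W ⇢ Y` onto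
varieties are allowed) with generic fibre `F`.

* If `κ(Y) ≥ 0` and `K_F` is pseudo-effective then `κ(W) ≥ dim W - 1`.
* `κ(W) ≥ κ(F) + κ(Y)`, or both `F` and `Y` are of general type.
* If `κ(Y) ≥ 0` then `κ(W) ≥ κ(F) + dim Y`, or `F` is of general type.

The exceptional case of the second part is the theorem of Viehweg on fibrations over varieties of
general type, which is not formalised. With this theorem, Iitaka's conjecture `C_{n,m}` holds for all
fibrations of all varieties `W` of this kind. The dimension is arbitrary, `q(W) = 0` is possible, and `V` and `W` need not have a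
known good minimal model.

Proof. By the theorem on the images of products of varieties and a curve (`N145.SX.multi_all`, see the
starting result `MP_97d78d_ag.ProductsOfVarieties`), `W` is uniruled or `κ(W) ≥ dim W - 1`. If `W` is
uniruled then the rational curves are in the fibres or cover `Y`, so that `K_F` is not
pseudo-effective or `κ(Y) = -∞` (`Pool/Agent/R882/UA.lean`, `UB.lean`, `UC.lean`). If
`κ(W) ≥ dim W - 1` then `κ(W) < κ(F) + κ(Y)` is only possible if `κ(F) = dim F` and `κ(Y) = dim Y`.
-/

set_option autoImplicit false
set_option linter.overlappingInstances false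
set_option maxHeartbeats 4000000
set_option synthInstance.maxHeartbeats 400000

open FF Module Pool.Agent Pool.Agent.W602.GT

namespace Pool.Agent.Results.MP_f72953_ag.ImagesOfProductsTimesCurve

/-- **The canonical forms separate `r` general points.** `E` is the function field of a variety `X` of
dimension `m`, and `D` a rational frame of the tangent bundle. The embeddings `σ : E → Ω` are the
generic points of `X` with coordinates in the field `Ω`. At most `r` different such points impose
independent conditions on the canonical forms `ω` which are regular at all prime divisors: if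
`∑ c σ * σ (ω D) = 0` for all `ω` then all the coefficients `c σ` are zero. -/
def SeparatesPoints (E : Type) [Field E] [Algebra ℂ E] (m r : ℕ) : Prop :=
  ∀ D : Fin m → Derivation ℂ E E, LinearIndependent E D →
    ∀ (Ω : Type) [Field Ω] [Algebra ℂ Ω] [IsAlgClosed Ω] (A : Finset (E →ₐ[ℂ] Ω)), A.card ≤ r →
    ∀ c : (E →ₐ[ℂ] Ω) → Ω,
    (∀ ω : (Fin m → Derivation ℂ E E) → E, IsPluri 1 ω →
      (∀ P : Place ℂ E, Divisorial m P → RegAt P ω) → ∑ σ ∈ A, c σ * σ (ω D) = 0) →
    ∀ σ ∈ A, c σ = 0

variable {K : Type} [Field K] [Algebra ℂ K] {k : ℕ}

/-- The function field of the image `W_i` of `V` in the product of `W` and the first `i` factors.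
Here `K` and `L` are the function fields of `V` and `W`, and `F l` is the one of the `l`-th
factor. -/
noncomputable def Img (F : Fin (k + 1) → IntermediateField ℂ K) (L : Type) [Field L] [Algebra L K]
    (i : ℕ) : IntermediateField L K :=
  IntermediateField.adjoin L {z | ∃ l : Fin (k + 1), l.val < i ∧ z ∈ F l}

/-- The degree over `W_i` of the image of `V` in the product of `W_i` and the `i`-th factor. -/
noncomputable def deg (F : Fin (k + 1) → IntermediateField ℂ K) (L : Type) [Field L] [Algebra L K]
    (i : Fin (k + 1)) : ℕ :=
  finrank (Img F L i) (IntermediateField.adjoin (Img F L i) (F i : Set K))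

theorem deg_eq (F : Fin (k + 1) → IntermediateField ℂ K) (L : Type) [Field L] [Algebra ℂ L]
    [Algebra L K] [IsScalarTower ℂ L K] [FiniteDimensional L K] (i : Fin (k + 1)) :
    deg F L i = finrank (N145.PC.MF F L (N145.PC.Js (k + 1) i))
      (IntermediateField.adjoin (N145.PC.MF F L (N145.PC.Js (k + 1) i)) (F i : Set K)) := by
  unfold deg Img
  rw [N145.SX.mf_eq]

/-- The Kodaira dimension of the smooth projective varieties of dimension `n` over `k` with the
function field `K` is at least `h`: there are pluricanonical forms of some weight, regular at all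
prime divisors, with `h` algebraically independent ratios. -/
def KappaGe (k K : Type) [Field k] [Field K] [Algebra k K] (n h : ℕ) : Prop :=
  KodGe k K n (fun _ => False) h

/-- The canonical divisor of the smooth projective varieties of dimension `n` over `k` with the
function field `K` is pseudo-effective. -/
def IsPseudoEffective (k K : Type) [Field k] [Field K] [Algebra k K] (n : ℕ) : Prop :=
  Psef k K n (fun _ => False)

/-- **Iitaka's conjecture for images of products of varieties and a curve.** Let `K` be the function
field of the product `V` of the varieties with the function fields `F i`, `i < k`, of dimension `m i`,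
and of the curve with the function field `F k`, i.e. `K` is the compositum and its transcendence degree
is `∑ m i + 1`. Let `L ⊆ K` be the function field of a variety `W` such that the extension is finite.
Suppose that for all `i < k` the canonical forms of the `i`-th variety separate `2 d i` general points,
where `d i` is the degree over `W_i` of the image of `V` in the product of `W_i` and this variety. Let
`W ⇢ Y` be a dominant rational map, given by the subfield `E` of `L`, with generic fibre `F`, the variety
over `E` with the function field `L`, `d = dim Y` and `f = dim F`. If `κ(Y) ≥ 0` and `K_F` is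
pseudo-effective then `κ(W) ≥ ∑ m i = dim W - 1`. If `κ(Y) ≥ p ≥ 0` and `κ(F) ≥ q ≥ 0` then
`κ(W) ≥ p + q`, unless `p = dim Y` and `q = dim F`; and `κ(W) ≥ dim Y + q`, unless `q = dim F`. -/
theorem result [Algebra.EssFiniteType ℂ K] (m : Fin k → ℕ)
    (F : Fin (k + 1) → IntermediateField ℂ K) [∀ i, Algebra.EssFiniteType ℂ (F i)]
    [IsFF ℂ (F (Fin.last k))] (hF : ⨆ i, F i = ⊤)
    (hm : ∀ i : Fin k, Algebra.trdeg ℂ (F i.castSucc) = m i)
    (hK : Algebra.trdeg ℂ K = (∑ i, m i + 1 : ℕ)) (L : Type) [Field L] [Algebra ℂ L]
    [Algebra L K] [IsScalarTower ℂ L K] [FiniteDimensional L K]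
    (hX : ∀ i : Fin k, SeparatesPoints (F i.castSucc) (m i) (2 * deg F L i.castSucc))
    (E : IntermediateField ℂ L) [Algebra.EssFiniteType ℂ E] {d f : ℕ}
    (hd : Algebra.trdeg ℂ E = d) (hf : Algebra.trdeg E L = f) :
    (KappaGe ℂ E d 0 → IsPseudoEffective E L f → KappaGe ℂ L (∑ i, m i + 1) (∑ i, m i)) ∧
    ∀ p q : ℕ, KappaGe ℂ E d p → KappaGe E L f q →
      (KappaGe ℂ L (∑ i, m i + 1) (p + q) ∨ (p = d ∧ q = f)) ∧
      (KappaGe ℂ L (∑ i, m i + 1) (d + q) ∨ q = f) := by
  choose x D hx hD using fun i : Fin k => Pool.Agent.Y172.exists_crd (hm i)
  have h := N145.SX.multi_all (L := L) hF hm hK hx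
    (g := fun i => 2 * deg F L i.castSucc + 1)
    (fun i => N145.SX.sepX_of' (hx i) (hD i) fun Ω _ _ _ A hA c hc =>
      hX i (D i) (N145.SX.dual_indep (hD i)) Ω A hA c hc)
    (fun i => by
      rw [deg_eq]
      exact Nat.lt_succ_self _)
  have hL : Algebra.trdeg ℂ L = (∑ i, m i + 1 : ℕ) := Pool.Agent.Y184.NT.trdeg_below (K := K) hK
  have hessL : Algebra.EssFiniteType ℂ L := Pool.Agent.TH466.QG.ess_below (K := K)
  have hdf : d + f = ∑ i, m i + 1 := by
    have h3 := trdeg_add_eq ℂ E (A := L)
    rw [hd, hf, hL] at h3
    exact_mod_cast h3
  have hkey : KappaGe ℂ E d 0 → IsPseudoEffective E L f →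
      KappaGe ℂ L (∑ i, m i + 1) (∑ i, m i) := fun hY h4 =>
    (h.1.out 1 2).2 fun h5 => Pool.Agent.R882.UA.fib_not hL h5 E hd hf hY h4
  refine ⟨hkey, fun p q hp hq => ?_⟩
  have h1 := hkey (Pool.Agent.R882.UA.kod_mono hp (Nat.zero_le _))
    (psef_of_kodGe (Pool.Agent.R882.UA.kod_mono hq (Nat.zero_le _)))
  have hp' : p ≤ d := Pool.Agent.R882.UA.kod_le_dim hd hp
  have hq' : q ≤ f := Pool.Agent.R882.UA.kod_le_dim hf hq
  constructor
  · by_cases hpq : p = d ∧ q = f
    · exact Or.inr hpq
    · left
      exact Pool.Agent.R882.UA.kod_mono h1 (by omega)
  · by_cases hqf : q = f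
    · exact Or.inr hqf
    · left
      exact Pool.Agent.R882.UA.kod_mono h1 (by omega)

end Pool.Agent.Results.MP_f72953_ag.ImagesOfProductsTimesCurve
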