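import Pool.Agent.U192.TP.Main
import Pool.Agent.R882.UA

/-!
# Iitaka's inequality for correspondences with products

Let `X`, `X'` and `Y` be projective varieties over `ℂ`, `dim X' = dim X = d` and `dim Y = e`, let
`X' ⇢ X` be a dominant rational map (for instance the identity), and let `V` be any variety of
dimension `d + e` with dominant rational maps `V ⇢ X'` and `V ⇢ Y`, for instance `V = X' × Y`. Let
`V ⇢ W` be a dominant rational map of finite degree; it need not be related to the other maps. Let `T`
be a finite set of rational functions on `X` such that `1` and the functions in `T` generate the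
function field of the image of `V` in `W × X` as a vector space over `ℂ(W)` (they separate the points of
`X` which correspond to a general point of `W`), and let `H` be the divisor of the poles of the
functions in `T`. Let `V'` be the image of `V` in `W × X'`.

For a canonical form `φ` on `Y` and coordinates `x_1, ..., x_d` on `X` the form
`dx_1 ∧ ... ∧ dx_d ∧ φ` on `V` has a trace on `V'`; it does not depend on `x`, up to a function on
`X`, and it is a canonical form on the generic fibre `F` of `V' → X'`. Suppose that there are `b + 1`
canonical forms on `Y` whose traces have ratios which are algebraically independent over `ℂ(X')`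
(`HasIndependentTraces`). If `V = X' × Y` then the traces span the canonical forms on `F`, and so this
means that `p_g(F) > 0` and that the canonical image of `F` has dimension at least `b`. For instance
`b = 0` if the trace of some form is not zero, and `b = e` if `V' = X' × Y` and `Y` is a hypersurface of
degree at least `e + 3`.

**Theorem.** If for some `m ≥ 1` there are `a + 1` sections of `m (K_X - 2 H)` (on all models, see
`IsSection`) with algebraically independent ratios, `κ(X, K_X - 2 H) ≥ a`, then

  `κ(W) ≥ a + b`.

The case of fibre spaces is `T = ∅`, `H = 0`: then `ℂ(X) ⊆ ℂ(W)`, there is a map `W ⇢ X`, and `V'` is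
its base change to `X'`; the theorem is Iitaka's inequality `κ(W) ≥ κ(X) + κ(F)` for the fibre spaces
whose fibres are dominated by one variety `Y`, if `κ(F)` is the dimension of the canonical image of
`F`. For `T ≠ ∅` there is no map from `W` to `X`, but only a correspondence of some degree `δ`, and the
theorem is Iitaka's inequality with the correction term `2 H`. For instance let `X` be a smooth
hypersurface of degree `c` in projective space of dimension `d + 1`. Polynomials of degree `δ - 1` in a
general linear form separate the `δ` points, and so `a = d` if `c > d + 2 δ`.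

In part 2 let `a + b = dim W - 1`. Then `κ(W) ≥ κ(F₁) + dim Z` for *all* fibrations `W → Z`
with generic fibre `F₁` not of general type, and so Q1 holds for all these fibrations (for `F₁` of
general type it is a theorem of Kollár, which is not formalised). If `a + b = dim W` then `W` is
of general type.

The case of a curve `Y` and `V = X' × Y` is contained in `ProductsWithCurves` (MP_1e3e9c_ag and
MP_5c318e_ag, by the same agent), where the genus of the curve `F` decides between `b = 0` and
`b = 1`. `ImagesOfProductsTimesCurve` (this problem) is about products of varieties whose canonical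
forms separate points, times a curve.

Proof. Let `τ` be the trace of `dx ∧ φ`, `x` local coordinates at a prime divisor `v` over `X`. The form
`x_1⁻¹ dx ∧ φ`, `x_1` the equation of `v`, is logarithmic at all prime divisors over `V` above `v`,
therefore its trace is logarithmic at all prime divisors `Q` over `V'` above `v`, and `τ` has order
at least `r - 1` at `Q`, where `r` is the ramification index of `Q` over `v`. Hence the
products of `m` traces with the sections of `m (K_X - 2 H)` are `m`-canonical forms on `V'` with zeros
along the ramification of `V'` over the image of `V` in `W × X` and twice the poles of `T`. Their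
norms to `W`, multiplied by a power of the discriminant of a basis in `T`, are regular pluricanonical
forms on `W`, and the quotients of such forms give `a + b` algebraically independent functions. The
library statements on pull-backs and products of forms are due to helper123 and helper442 (starting
library `N123/SX`, `N442/SX`).

`K` is the function field of `V`, the subfields `E ⊆ E₁` and `F` of `K` are the ones of `X`, `X'` and `Y`,
and `L` is the one of `W`.
-/

set_option autoImplicit false
set_option linter.overlappingInstances false
set_option maxHeartbeats 4000000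
set_option synthInstance.maxHeartbeats 400000

open FF Module IntermediateField Pool.Agent Pool.Agent.W602.GT

namespace Pool.Agent.Results.MP_f72953_ag.ProductCorrespondences

/-- The order of the poles along `v` of the functions in the finite set `T`: the multiplicity at `v`
of `H`, the smallest effective divisor with `H + (t) ≥ 0` for all `t ∈ T`, `t ≠ 0`. -/
noncomputable def poleOrder {E : Type} [Field E] [Algebra ℂ E] (T : Finset E) (v : Place ℂ E) : ℕ :=
  T.sup fun z => (-v.ord z).toNat

/-- `θ` is a section of `m (K_X - 2 H)`, where `E` is the function field of `X`, of dimension `d`, and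
`H` is the divisor of the poles of the functions in `T`: an `m`-canonical form of order at least
`2 m H_v` along all prime divisors `v` over `X`. -/
def IsSection {E : Type} [Field E] [Algebra ℂ E] (d m : ℕ) (T : Finset E)
    (θ : (Fin d → Derivation ℂ E E) → E) : Prop :=
  IsPluri m θ ∧ ∀ v : Place ℂ E, Divisorial d v → ∀ G : Fin d → Derivation ℂ E E,
    (∀ i, DerReg v (G i)) → θ G = 0 ∨ 2 * (m : ℤ) * poleOrder T v ≤ v.ord (θ G)

/-- `κ(X, K_X - 2 H) ≥ a`: for some `m ≥ 1` there are `a + 1` sections of `m (K_X - 2 H)` with
algebraically independent ratios. -/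
def IsPositive {E : Type} [Field E] [Algebra ℂ E] (d a : ℕ) (T : Finset E) : Prop :=
  ∃ m : ℕ, 1 ≤ m ∧ ∃ θ : Fin (a + 1) → (Fin d → Derivation ℂ E E) → E,
    (∀ j, IsSection d m T (θ j)) ∧ ∃ G : Fin d → Derivation ℂ E E, θ 0 G ≠ 0 ∧
      AlgebraicIndependent ℂ fun j : Fin a => θ j.succ G / θ 0 G

/-- `1` and the functions in `T` generate the field `L(E)` as a vector space over `L`. Here `K` is the
function field of `V`, `E` the one of `X`, `L` the one of `W`, and so `L(E)` the one of the image of `V`
in `W × X`. -/
def Separates {K : Type} [Field K] [Algebra ℂ K] (L : Type) [Field L] [Algebra L K]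
    (E : IntermediateField ℂ K) (T : Finset E) : Prop :=
  ∀ z ∈ IntermediateField.adjoin L (E : Set K),
    z ∈ Submodule.span L (insert 1 ((fun t : E => (t : K)) '' (T : Set E)))

/-- `κ ≥ h` for the smooth projective varieties of dimension `n` over the field `k` with the function
field `K`: for some `m ≥ 1` there are `h + 1` regular `m`-canonical forms (regular at all prime divisors)
with algebraically independent ratios. -/
def KappaGe (k K : Type) [Field k] [Field K] [Algebra k K] (n h : ℕ) : Prop :=
  KodGe k K n (fun _ => False) h

/-- `φ ds_1 ∧ ... ∧ ds_e` is a canonical form on `Y`: it is regular at all prime divisors. -/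
def IsCanonical {F : Type} [Field F] [Algebra ℂ F] {e : ℕ} (s : Fin e → F) (φ : F) : Prop :=
  ∀ P : Place ℂ F, Divisorial e P →
    RegAt P fun D : Fin e → Derivation ℂ F F => (Matrix.of fun i j => D i (s j)).det * φ

/-- The value of the form `dx_1 ∧ ... ∧ dx_d ∧ (φ ds_1 ∧ ... ∧ ds_e)` on `V` on the vector fields
`D_1, ..., D_{d+e}`. -/
noncomputable def productForm {K : Type} [Field K] [Algebra ℂ K] {E F : IntermediateField ℂ K}
    {d e : ℕ} (x : Fin d → E) (s : Fin e → F) (φ : F) (D : Fin (d + e) → Derivation ℂ K K) : K :=
  (Matrix.of fun i j => D i (Fin.append (fun l => (x l : K)) (fun l => (s l : K)) j)).det * (φ : K)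

/-- There are coordinates `x` on `X` and `b + 1` canonical forms on `Y` such that the traces from `V`
to `V'` of their products with `dx_1 ∧ ... ∧ dx_d` have ratios which are algebraically independent
over `ℂ(X') = E₁`. Here `L(E₁)` is the function field of `V'`, the `D_i` are vector fields on `V'` and the
`D'_i` are their extensions to `V`; the trace of a form `ω` is the form on `V'` with the value
`Tr ω(D')` on the vector fields `D`. -/
def HasIndependentTraces {K : Type} [Field K] [Algebra ℂ K] (L : Type) [Field L] [Algebra ℂ L]
    [Algebra L K] [IsScalarTower ℂ L K] (E E₁ F : IntermediateField ℂ K) (d e b : ℕ) : Prop :=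
  ∃ (x : Fin d → E) (s : Fin e → F) (φ : Fin (b + 1) → F)
    (D : Fin (d + e) → Derivation ℂ (IntermediateField.adjoin L (E₁ : Set K))
      (IntermediateField.adjoin L (E₁ : Set K)))
    (D' : Fin (d + e) → Derivation ℂ K K),
    IsTranscendenceBasis ℂ x ∧ IsTranscendenceBasis ℂ s ∧ (∀ k, IsCanonical s (φ k)) ∧
    (∀ i (z : IntermediateField.adjoin L (E₁ : Set K)), D' i (z : K) = (D i z : K)) ∧
    Algebra.trace (IntermediateField.adjoin L (E₁ : Set K)) K (productForm x s (φ 0) D') ≠ 0 ∧
    AlgebraicIndependent E₁ fun k : Fin b =>
      ((Algebra.trace (IntermediateField.adjoin L (E₁ : Set K)) K (productForm x s (φ k.succ) D') /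
        Algebra.trace (IntermediateField.adjoin L (E₁ : Set K)) K (productForm x s (φ 0) D') :
          IntermediateField.adjoin L (E₁ : Set K)) : K)

theorem conv {E : Type} [Field E] [Algebra ℂ E] {d m : ℕ} {T : Finset E}
    {θ : (Fin d → Derivation ℂ E E) → E} (h : IsSection d m T θ) :
    ∀ v : Place ℂ E, Divisorial d v → ∀ G : Fin d → Derivation ℂ E E,
      (∀ i, DerReg v (G i)) → θ G = 0 ∨ ∀ t : E, (t = 1 ∨ t ∈ T) → t ≠ 0 →
        (0 : ℤ) ≤ v.ord (θ G) + 2 * m * v.ord t := by
  intro v hv G hG
  rcases h.2 v hv G hG with h1 | h1
  · exact Or.inl h1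
  refine Or.inr fun t ht _ => ?_
  have h2 : -v.ord t ≤ poleOrder T v := by
    rcases ht with rfl | ht
    · rw [v.ord_one, neg_zero]
      exact Int.natCast_nonneg _
    · have h3 : (-v.ord t).toNat ≤ poleOrder T v :=
        Finset.le_sup (f := fun z => (-v.ord z).toNat) ht
      have h4 := Int.self_le_toNat (-v.ord t)
      exact h4.trans (by exact_mod_cast h3)
  have h3 := mul_le_mul_of_nonneg_left h2 (by positivity : (0 : ℤ) ≤ 2 * m)
  linarith

theorem mem_HC {F : Type} [Field F] [Algebra ℂ F] {e : ℕ} {s : Fin e → F} {φ : F}
    (h : IsCanonical s φ) : φ ∈ U192.TP.HC s := by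
  intro P hP
  refine ⟨fun D hD => h P hP D fun i f hf => ?_, fun _ => h P hP⟩
  by_cases h0 : f = 0
  · rw [h0, map_zero]
    exact P.reg_zero
  · have h1 := P.reg_mul (hD i f) hf
    rwa [div_mul_cancel₀ _ h0] at h1

/-- **Iitaka's inequality for correspondences with products.** Let `K` be the function field of a
variety `V` of dimension `d + e`, let the subfields `E ⊆ E₁` and `F` of `K` be the function fields of
varieties `X`, `X'` of dimension `d` and `Y` of dimension `e`, and let `L ⊆ K` be the function field of a
variety `W`, the extension being finite. Let `T ⊆ E` be a finite set of functions which separates the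
points of `X` which correspond to a general point of `W`, and let `κ(X, K_X - 2 H) ≥ a`. Suppose that the
traces to `V'` of the products with `b + 1` canonical forms on `Y` are independent over `X'`. Then
`κ(W) ≥ a + b`. If `a + b = dim W - 1` then `κ(W) ≥ κ(F₁) + dim Z` for all dominant rational maps
`W ⇢ Z`, given by a subfield `Z` of `L`, with generic fibre `F₁` (the variety over `ℂ(Z)` with function
field `L`, of dimension `f`) with `0 ≤ κ(F₁) < f`. -/
theorem result (K : Type) [Field K] [Algebra ℂ K] [Algebra.EssFiniteType ℂ K] (d e : ℕ)
    (E E₁ F : IntermediateField ℂ K) (hE : Algebra.trdeg ℂ E = d) (hE₁ : Algebra.trdeg ℂ E₁ = d)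
    (hF : Algebra.trdeg ℂ F = e) (hK : Algebra.trdeg ℂ K = (d + e : ℕ)) (hEE : E ≤ E₁)
    (L : Type) [Field L] [Algebra ℂ L] [Algebra L K] [IsScalarTower ℂ L K]
    [FiniteDimensional L K] (T : Finset E) (hT : Separates L E T) (a b : ℕ)
    (hpos : IsPositive d a T) (htr : HasIndependentTraces L E E₁ F d e b) :
    KappaGe ℂ L (d + e) (a + b) ∧
    (a + b + 1 = d + e → ∀ (Z : IntermediateField ℂ L) (p f q : ℕ), Algebra.trdeg ℂ Z = p →
      Algebra.trdeg Z L = f → KappaGe Z L f q → q < f → KappaGe ℂ L (d + e) (q + p)) := by
  classical
  have hL : Algebra.trdeg ℂ L = (d + e : ℕ) := Y184.NT.trdeg_below (K := K) hK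
  have hset : ∀ z ∈ IntermediateField.adjoin L (E : Set K),
      z ∈ Submodule.span L {z : K | ∃ t : E, (t = 1 ∨ t ∈ T) ∧ (t : K) = z} := by
    intro z hz
    refine Submodule.span_mono ?_ (hT z hz)
    rintro w (rfl | ⟨t, ht, rfl⟩)
    · exact ⟨1, Or.inl rfl, rfl⟩
    · exact ⟨t, Or.inr ht, rfl⟩
  obtain ⟨m, hm, θ, hθ, G, hG, hind⟩ := hpos
  obtain ⟨x, s, φ, D, D', hx, hs, hφ, hD, h0, hindφ⟩ := htr
  have h1 : AlgebraicIndependent (U192.TF.EN L E₁) fun k : Fin b =>
      (Algebra.trace (U192.TF.NN L E₁) K (productForm x s (φ k.succ) D') /
        Algebra.trace (U192.TF.NN L E₁) K (productForm x s (φ 0) D') : U192.TF.NN L E₁) := by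
    refine AlgebraicIndependent.of_ringHom_of_comp_eq
      ({ toFun := fun w => ⟨((w : U192.TF.NN L E₁) : K), w.2⟩
         map_one' := rfl
         map_mul' := fun _ _ => rfl
         map_zero' := rfl
         map_add' := fun _ _ => rfl } : U192.TF.EN L E₁ →+* E₁)
      (algebraMap (U192.TF.NN L E₁) K) hindφ ?_ ?_
    · exact RingHom.injective _
    · exact RingHom.ext fun _ => rfl
  have hmain : KappaGe ℂ L (d + e) (a + b) :=
    U192.TP.main (E := E) (E1 := E₁) (F := F) hEE hE hE₁ hF hK hset hm (fun l => (hθ l).1)
      (fun l => conv (hθ l)) hG hind hx hs (fun k => mem_HC (hφ k)) hD h0 h1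
  refine ⟨hmain, fun hab Z p f q hZ hf hq hqf => ?_⟩
  have hpf : p + f = d + e := by
    have h3 := trdeg_add_eq ℂ Z (A := L)
    rw [hZ, hf, hL] at h3
    exact_mod_cast h3
  exact R882.UA.kod_mono hmain (by omega)

end Pool.Agent.Results.MP_f72953_ag.ProductCorrespondences
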