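import Mathlib

/-!
# Iitaka's conjecture follows from its form with a sublinear error, for almost general type

Iitaka conjectured, for fibrations `F → E → B` of smooth complex projective varieties, that
`κ(E) ≥ κ(F) + κ(B)`. Products of fibrations are fibrations, with the product of the general
fibres, and the Kodaira dimension is additive for products. So one fibration `f₀` which violates
the inequality gives, for all large `p` and `q`, a fibration with `dim F = p`, `dim B = q` which
violates it by a fixed positive multiple of `min (p, q)` and has `κ(F) ≥ (1 - ε) p` and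
`κ(B) ≥ (1 - ε) q`: take a power of `f₀`, times `Cⁱ → pt` and times the identity of `Cʲ`, for a
curve `C` of genus two.
-/

set_option autoImplicit false

namespace Pool.Agent.Results.MP_f72953_ag.SublinearErrorSuffices

/-- Smooth projective varieties with dimension, Kodaira dimension (`⊥` is `-∞`), products, and the
relation: there is a fibration `E → B` with general fibre `F`. -/
structure Varieties where
  Var : Type
  dim : Var → ℕ
  kappa : Var → WithBot ℕ
  prod : Var → Var → Var
  IsFibration : Var → Var → Var → Prop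

/-- The facts used: dimension and Kodaira dimension of a product are the sums; products of
fibrations are fibrations, and the product of the general fibres is the general fibre; there is a
point, and the identity and the constant map of a variety are fibrations; there is a curve of
general type. -/
structure Facts (V : Varieties) : Prop where
  dim_prod : ∀ X Y, V.dim (V.prod X Y) = V.dim X + V.dim Y
  kappa_prod : ∀ X Y, V.kappa (V.prod X Y) = V.kappa X + V.kappa Y
  prod_fibration : ∀ F E B F' E' B', V.IsFibration F E B → V.IsFibration F' E' B' →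
    V.IsFibration (V.prod F F') (V.prod E E') (V.prod B B')
  point : ∃ P, V.dim P = 0 ∧ V.kappa P = 0 ∧ ∀ X, V.IsFibration P X X ∧ V.IsFibration X X P
  curve : ∃ C, V.dim C = 1 ∧ V.kappa C = 1

/-- `κ(F) ≥ c dim F` (in particular `κ(F) ≠ -∞`). -/
def Rich (V : Varieties) (c : ℝ) (F : V.Var) : Prop :=
  ∃ p : ℕ, V.kappa F = p ∧ c * V.dim F ≤ p

/-- `κ(E) ≥ κ(F) + κ(B) - e`, with `κ(E) ≠ -∞`, for `F` and `B` with `κ(F), κ(B) ≥ 0`. -/
def UpTo (V : Varieties) (e : ℝ) (F E B : V.Var) : Prop :=
  ∀ p q : ℕ, V.kappa F = p → V.kappa B = q →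
    ∃ r : ℕ, V.kappa E = r ∧ (p : ℝ) + q ≤ r + e

/-- Products with curves on the fibre and on the base. -/
theorem add_curves {V : Varieties} (h : Facts V) {F E B : V.Var} (hf : V.IsFibration F E B)
    (i j : ℕ) : ∃ F' E' B', V.IsFibration F' E' B' ∧
      V.dim F' = V.dim F + i ∧ V.dim B' = V.dim B + j ∧
      V.kappa F' = V.kappa F + (i : ℕ) ∧ V.kappa B' = V.kappa B + (j : ℕ) ∧
      V.kappa E' = V.kappa E + ((i + j : ℕ) : WithBot ℕ) := by
  obtain ⟨P, hP1, hP2, hP3⟩ := h.point
  obtain ⟨C, hC1, hC2⟩ := h.curve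
  induction i with
  | zero =>
    induction j with
    | zero => exact ⟨F, E, B, hf, by simp, by simp, by simp, by simp, by simp⟩
    | succ j ih =>
      obtain ⟨F', E', B', g, d1, d2, k1, k2, k3⟩ := ih
      refine ⟨V.prod F' P, V.prod E' C, V.prod B' C,
        h.prod_fibration _ _ _ _ _ _ g (hP3 C).1, ?_, ?_, ?_, ?_, ?_⟩
      · rw [h.dim_prod, d1, hP1]
      · rw [h.dim_prod, d2, hC1]; omega
      · rw [h.kappa_prod, k1, hP2, add_zero]
      · rw [h.kappa_prod, k2, hC2]; push_cast; rw [add_assoc]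
      · rw [h.kappa_prod, k3, hC2]; push_cast; rw [add_assoc, add_assoc]
  | succ i ih =>
    obtain ⟨F', E', B', g, d1, d2, k1, k2, k3⟩ := ih
    refine ⟨V.prod F' C, V.prod E' C, V.prod B' P,
      h.prod_fibration _ _ _ _ _ _ g (hP3 C).2, ?_, ?_, ?_, ?_, ?_⟩
    · rw [h.dim_prod, d1, hC1]; omega
    · rw [h.dim_prod, d2, hP1, add_zero]
    · rw [h.kappa_prod, k1, hC2]; push_cast; rw [add_assoc]
    · rw [h.kappa_prod, k2, hP2, add_zero]
    · rw [h.kappa_prod, k3, hC2]; push_cast
      rw [add_assoc]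
      congr 1
      rw [add_assoc, add_assoc, add_comm (j : WithBot ℕ) 1]

/-- Powers of a fibration. -/
theorem powers {V : Varieties} (h : Facts V) {F E B : V.Var} (hf : V.IsFibration F E B)
    (m : ℕ) : ∃ F' E' B', V.IsFibration F' E' B' ∧
      V.dim F' = (m + 1) * V.dim F ∧ V.dim B' = (m + 1) * V.dim B ∧
      V.kappa F' = (m + 1) • V.kappa F ∧ V.kappa B' = (m + 1) • V.kappa B ∧
      V.kappa E' = (m + 1) • V.kappa E := by
  induction m with
  | zero => exact ⟨F, E, B, hf, by simp, by simp, by simp, by simp, by simp⟩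
  | succ m ih =>
    obtain ⟨F', E', B', g, d1, d2, k1, k2, k3⟩ := ih
    refine ⟨V.prod F' F, V.prod E' E, V.prod B' B,
      h.prod_fibration _ _ _ _ _ _ g hf, ?_, ?_, ?_, ?_, ?_⟩
    · rw [h.dim_prod, d1]; ring
    · rw [h.dim_prod, d2]; ring
    · rw [h.kappa_prod, k1, ← succ_nsmul]
    · rw [h.kappa_prod, k2, ← succ_nsmul]
    · rw [h.kappa_prod, k3, ← succ_nsmul]

/-- Let `0 < ε`. Iitaka's inequality for all fibrations is equivalent to: for every `η > 0` there
are arbitrarily large `p` and `q` such that `κ(E) ≥ κ(F) + κ(B) - η min (p, q)` for all fibrations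
with `dim F = p`, `dim B = q`, `κ(F) ≥ (1 - ε) p` and `κ(B) ≥ (1 - ε) q`. -/
theorem result (V : Varieties) (h : Facts V) (ε : ℝ) (hε : 0 < ε) :
    (∀ F E B, V.IsFibration F E B → V.kappa F + V.kappa B ≤ V.kappa E) ↔
    (∀ η : ℝ, 0 < η → ∀ N : ℕ, ∃ p q : ℕ, N ≤ p ∧ N ≤ q ∧
      ∀ F E B, V.IsFibration F E B → V.dim F = p → V.dim B = q →
        Rich V (1 - ε) F → Rich V (1 - ε) B → UpTo V (η * min (p : ℝ) q) F E B) := by
  constructor
  · intro hI η hη N
    refine ⟨N, N, le_rfl, le_rfl, fun F E B hf _ _ _ _ p q hp hq => ?_⟩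
    have h1 := hI F E B hf
    rw [hp, hq] at h1
    cases hE : V.kappa E with
    | bot =>
      rw [hE] at h1
      have h2 : ((p + q : ℕ) : WithBot ℕ) ≤ ⊥ := by push_cast; exact h1
      simp at h2
    | coe r =>
      rw [hE] at h1
      have h2 : ((p + q : ℕ) : WithBot ℕ) ≤ (r : WithBot ℕ) := by push_cast; exact h1
      have h3 : p + q ≤ r := by exact_mod_cast h2
      refine ⟨r, rfl, ?_⟩
      have h4 : (p : ℝ) + q ≤ r := by exact_mod_cast h3
      have h5 : 0 ≤ η * min (N : ℝ) N := by positivity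
      linarith
  · intro hU F E B hf
    by_contra hcon
    rw [not_le] at hcon
    -- the Kodaira dimensions of `F` and `B` are not `-∞`
    obtain ⟨x, hx⟩ : ∃ x : ℕ, V.kappa F = x := by
      cases hF : V.kappa F with
      | bot => rw [hF, WithBot.bot_add] at hcon; exact absurd hcon (by simp)
      | coe x => exact ⟨x, rfl⟩
    obtain ⟨y, hy⟩ : ∃ y : ℕ, V.kappa B = y := by
      cases hB : V.kappa B with
      | bot => rw [hB, WithBot.add_bot] at hcon; exact absurd hcon (by simp)
      | coe y => exact ⟨y, rfl⟩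
    set a := V.dim F with ha
    set b := V.dim B with hb
    obtain ⟨M, hM⟩ := exists_nat_ge (((a : ℝ) + b) / ε + (a + b) + 1)
    have hab : (0 : ℝ) ≤ (a : ℝ) + b := by positivity
    have hdiv : 0 ≤ ((a : ℝ) + b) / ε := by positivity
    have hM1 : ((a : ℝ) + b) ≤ ε * M := by
      have h1 : ((a : ℝ) + b) / ε ≤ M := by linarith
      rw [div_le_iff₀ hε] at h1
      linarith
    have hM2 : (a : ℝ) + b ≤ M := by linarith
    have hM3 : (1 : ℝ) ≤ M := by linarith
    have hMab : a + b ≤ M := by exact_mod_cast hM2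
    have hMpos : 0 < M := by
      have : (1 : ℕ) ≤ M := by exact_mod_cast hM3
      omega
    have hη : (0 : ℝ) < 1 / (2 * M) := by positivity
    obtain ⟨p, q, hp, hq, hall⟩ := hU (1 / (2 * M)) hη M
    set s := min p q with hs
    have hsM : M ≤ s := le_min hp hq
    set m := s / M with hm
    have hm1 : 1 ≤ m := (Nat.one_le_div_iff hMpos).2 hsM
    have hmM : m * M ≤ s := Nat.div_mul_le_self s M
    have hsm : s < (m + 1) * M := by
      rw [hm]
      exact (Nat.div_lt_iff_lt_mul hMpos).1 (Nat.lt_succ_self _)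
    have hsp : s ≤ p := min_le_left _ _
    have hsq : s ≤ q := min_le_right _ _
    have hma : m * a ≤ m * M := Nat.mul_le_mul_left _ (by omega)
    have hmb : m * b ≤ m * M := Nat.mul_le_mul_left _ (by omega)
    obtain ⟨F₁, E₁, B₁, g₁, d1, d2, k1, k2, k3⟩ := powers h hf (m - 1)
    rw [Nat.sub_add_cancel hm1] at d1 d2 k1 k2 k3
    obtain ⟨F₂, E₂, B₂, g₂, e1, e2, l1, l2, l3⟩ := add_curves h g₁ (p - m * a) (q - m * b)
    rw [d1, ← ha] at e1
    rw [d2, ← hb] at e2
    rw [k1, hx] at l1
    rw [k2, hy] at l2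
    rw [k3] at l3
    have e1' : V.dim F₂ = p := by omega
    have e2' : V.dim B₂ = q := by omega
    have l1' : V.kappa F₂ = ((m * x + (p - m * a) : ℕ) : WithBot ℕ) := by
      rw [l1]; push_cast; rw [nsmul_eq_mul]
    have l2' : V.kappa B₂ = ((m * y + (q - m * b) : ℕ) : WithBot ℕ) := by
      rw [l2]; push_cast; rw [nsmul_eq_mul]
    -- `m M ≤ min (p, q)` in real numbers
    have hmMp : (m : ℝ) * M ≤ p := by exact_mod_cast hmM.trans hsp
    have hmMq : (m : ℝ) * M ≤ q := by exact_mod_cast hmM.trans hsq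
    have hm0 : (0 : ℝ) ≤ m := Nat.cast_nonneg _
    have hεp : (m : ℝ) * a ≤ ε * p := by
      have h1 : (m : ℝ) * a ≤ m * (ε * M) :=
        mul_le_mul_of_nonneg_left (by have : (0 : ℝ) ≤ b := Nat.cast_nonneg _; linarith) hm0
      have h2 : ε * (m * M) ≤ ε * p := mul_le_mul_of_nonneg_left hmMp hε.le
      linarith
    have hεq : (m : ℝ) * b ≤ ε * q := by
      have h1 : (m : ℝ) * b ≤ m * (ε * M) :=
        mul_le_mul_of_nonneg_left (by have : (0 : ℝ) ≤ a := Nat.cast_nonneg _; linarith) hm0
      have h2 : ε * (m * M) ≤ ε * q := mul_le_mul_of_nonneg_left hmMq hε.le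
      linarith
    have hcp : ((p - m * a : ℕ) : ℝ) = p - m * a := by
      rw [Nat.cast_sub (by omega)]; push_cast; ring
    have hcq : ((q - m * b : ℕ) : ℝ) = q - m * b := by
      rw [Nat.cast_sub (by omega)]; push_cast; ring
    have hmx : (0 : ℝ) ≤ m * x := by positivity
    have hmy : (0 : ℝ) ≤ m * y := by positivity
    have r1 : Rich V (1 - ε) F₂ := by
      refine ⟨_, l1', ?_⟩
      rw [e1']
      push_cast
      rw [hcp]
      linarith
    have r2 : Rich V (1 - ε) B₂ := by
      refine ⟨_, l2', ?_⟩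
      rw [e2']
      push_cast
      rw [hcq]
      linarith
    obtain ⟨r, hr1, hr2⟩ := hall F₂ E₂ B₂ g₂ e1' e2' r1 r2 _ _ l1' l2'
    cases hE : V.kappa E with
    | bot =>
      rw [l3, hE] at hr1
      obtain ⟨m', hm'⟩ : ∃ m', m = m' + 1 := ⟨m - 1, by omega⟩
      rw [hm', succ_nsmul, WithBot.add_bot, WithBot.bot_add] at hr1
      exact absurd hr1 (by simp)
    | coe e =>
      rw [hE, hx, hy] at hcon
      have hc1 : ((e : ℕ) : WithBot ℕ) < ((x + y : ℕ) : WithBot ℕ) := by push_cast; exact hcon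
      have hc2 : e + 1 ≤ x + y := by exact_mod_cast hc1
      have hc3 : (e : ℝ) + 1 ≤ x + y := by exact_mod_cast hc2
      rw [hE] at l3
      have l3' : V.kappa E₂ = ((m * e + ((p - m * a) + (q - m * b)) : ℕ) : WithBot ℕ) := by
        rw [l3]; push_cast
        rw [show ((WithBot.some e : WithBot ℕ)) = ((e : ℕ) : WithBot ℕ) from rfl, nsmul_eq_mul]
      rw [l3'] at hr1
      have hr3 : m * e + ((p - m * a) + (q - m * b)) = r := by exact_mod_cast hr1
      rw [← hr3] at hr2
      push_cast at hr2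
      rw [hcp, hcq] at hr2
      have hmin : min (p : ℝ) q = s := by rw [hs]; push_cast; rfl
      rw [hmin] at hr2
      have hk : (m : ℝ) * (e + 1) ≤ m * (x + y) := mul_le_mul_of_nonneg_left hc3 hm0
      have hs2 : (s : ℝ) < (m + 1) * M := by exact_mod_cast hsm
      have hMr : (0 : ℝ) < M := by exact_mod_cast hMpos
      have h9 : 1 / (2 * (M : ℝ)) * s < (m + 1) / 2 := by
        calc 1 / (2 * (M : ℝ)) * s < 1 / (2 * (M : ℝ)) * ((m + 1) * M) :=
              mul_lt_mul_of_pos_left hs2 hη
          _ = (m + 1) / 2 := by field_simp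
      have h10 : (1 : ℝ) ≤ m := by exact_mod_cast hm1
      nlinarith

end Pool.Agent.Results.MP_f72953_ag.SublinearErrorSuffices
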